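import Mathlib
import Pool.Agent.Helper22.ETModel

/-!
# Exact Triangle with low-degree access and inspected bits

The model of `Pool/Agent/Helper22/ETModel.lean` (value queries and one-signed sparse sign queries),
extended by steps that inspect one bit of one weight.
-/

set_option autoImplicit false

namespace Pool.Agent.Helper8.LK

open Pool.Agent.Helper22.ETModel

/-- One step of an algorithm: a query (value query or sign query), or the inspection of one bit
`φ (w i j)` of the weight in the cell `(i, j)`. -/
inductive Act (n : ℕ) where
  | query (q : Query n)
  | bit (i j : Fin n) (φ : ℤ → Bool)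

open Classical in
/-- One step. The state consists of the list of answers given so far (all that the algorithm sees)
and the list of values computed so far by value queries (hidden from it). -/
noncomputable def act {n : ℕ} (I : Inst n) (st : List ℕ × List ℝ) : Act n → List ℕ × List ℝ
  | .query q => step I st q
  | .bit i j φ => (st.1 ++ [(φ (I.wt i j)).toNat], st.2)

/-- A randomized algorithm on `n`-vertex instances with `L` steps and `R` uniformly random bits.
The flags are known to it from the start; the next step and the final output are arbitrary
functions of the flags, the random bits and the answers received so far. -/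
structure LAlg (n L R : ℕ) where
  next : (Fin n → Fin n → Bool) → (Fin R → Bool) → List ℕ → Act n
  out : (Fin n → Fin n → Bool) → (Fin R → Bool) → List ℕ → Bool

/-- State after `t` steps. -/
noncomputable def LAlg.run {n L R : ℕ} (A : LAlg n L R) (I : Inst n) (ρ : Fin R → Bool) :
    ℕ → List ℕ × List ℝ
  | 0 => ([], [])
  | t + 1 => act I (A.run I ρ t) (A.next I.flag ρ (A.run I ρ t).1)

/-- Output after `L` steps. -/
noncomputable def LAlg.output {n L R : ℕ} (A : LAlg n L R) (I : Inst n) (ρ : Fin R → Bool) :
    Bool :=
  A.out I.flag ρ (A.run I ρ L).1

open Classical in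
/-- The number of queries (value queries and sign queries) in a run. -/
noncomputable def LAlg.queries {n L R : ℕ} (A : LAlg n L R) (I : Inst n) (ρ : Fin R → Bool) : ℕ :=
  ((Finset.range L).filter fun t =>
    ∃ q, A.next I.flag ρ (A.run I ρ t).1 = Act.query q).card

open Classical in
/-- The number of bits of the weight of the pair `{i, j}` that are inspected in a run. -/
noncomputable def LAlg.bits {n L R : ℕ} (A : LAlg n L R) (I : Inst n) (ρ : Fin R → Bool)
    (i j : Fin n) : ℕ :=
  ((Finset.range L).filter fun t => ∃ φ, A.next I.flag ρ (A.run I ρ t).1 = Act.bit i j φ ∨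
    A.next I.flag ρ (A.run I ρ t).1 = Act.bit j i φ).card

/-- On every valid instance and for all random bits there are at most `D` queries, and at most `b`
bits of every weight are inspected. -/
def LAlg.Within {n L R : ℕ} (A : LAlg n L R) (D b : ℕ) : Prop :=
  ∀ I : Inst n, I.Valid → ∀ ρ, A.queries I ρ ≤ D ∧ ∀ i j, A.bits I ρ i j ≤ b

/-- Every value query is a polynomial of total degree at most `d`, every sign query is admissible
with parameters `r`, `c`, and the inspected bits are functions of the residue of the weight modulo
a number `q ≤ n ^ e`, which may depend on the flags and the random bits. -/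
def LAlg.Admissible {n L R : ℕ} (A : LAlg n L R) (d r c e : ℕ) : Prop :=
  (∀ fl ρ ans f, A.next fl ρ ans = Act.query (Query.value f) → f.totalDegree ≤ d) ∧
  (∀ fl ρ ans a b, A.next fl ρ ans = Act.query (Query.sign a b) → SignOK n r c a b) ∧
  ∃ q : (Fin n → Fin n → Bool) → (Fin R → Bool) → ℕ, (∀ fl ρ, 1 ≤ q fl ρ ∧ q fl ρ ≤ n ^ e) ∧
    ∀ fl ρ ans i j φ, A.next fl ρ ans = Act.bit i j φ → ∀ z : ℤ, φ (z + q fl ρ) = φ z

open Classical in
/-- The algorithm decides Exact Triangle with bounded error: on every valid instance the output
is correct with probability at least `2/3` over the random bits. -/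
def LAlg.Decides {n L R : ℕ} (A : LAlg n L R) : Prop :=
  ∀ I : Inst n, I.Valid →
    2 * 2 ^ R ≤ 3 * (Finset.univ.filter fun ρ : Fin R → Bool => (A.output I ρ = true ↔ I.Yes)).card

end Pool.Agent.Helper8.LK
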