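import Mathlib
import Pool.Agent.Helper22.ETGeneric
import Pool.Agent.Helper8.LK.Defs

/-!
# The ideal run of an algorithm on a vector of residues
-/

set_option autoImplicit false
open Finset

namespace Pool.Agent.Helper8.LK

open Pool.Agent.Helper22.ETModel Pool.Agent.Helper22.EP

variable {m n : ℕ}

section cell

open Classical in
/-- the weight edge in a cell, if there is one -/
noncomputable def cellE (h : 3 * m ≤ n) (i j : Fin n) : Option (E m) :=
  if hx : ∃ e : E m, enc h e = (i, j) ∨ enc h e = (j, i) then some (Classical.choose hx) else none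

lemma cellE_spec (h : 3 * m ≤ n) {i j : Fin n} {e : E m} (he : cellE h i j = some e) :
    enc h e = (i, j) ∨ enc h e = (j, i) := by
  unfold cellE at he
  split_ifs at he with hx
  rw [Option.some.injEq] at he
  rw [← he]
  exact Classical.choose_spec hx

lemma wtOf_cellE (h : 3 * m ≤ n) (w : E m → ℤ) (i j : Fin n) :
    wtOf h w i j = match cellE h i j with
      | some e => w e
      | none => 0 := by
  rcases hc : cellE h i j with _ | e
  · simp only
    apply wtOf_flag_false
    unfold cellE at hc
    split_ifs at hc with hx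
    unfold flagOf
    rw [decide_eq_false_iff_not]
    exact hx
  · simp only
    rcases cellE_spec h hc with he | he
    · have h1 := wtOf_enc h w e
      rw [he] at h1
      exact h1
    · have h1 := wtOf_enc h w e
      rw [he] at h1
      rw [wtOf_symm]
      exact h1

/-- the ideal value of an inspected bit -/
noncomputable def bitv (h : 3 * m ≤ n) {q : ℕ} (r : E m → ZMod q) (i j : Fin n) (φ : ℤ → Bool) :
    Bool :=
  match cellE h i j with
  | some e => φ (r e).cast
  | none => φ 0

lemma per_mod {q : ℕ} {φ : ℤ → Bool} (hφ : ∀ z : ℤ, φ (z + q) = φ z) (z : ℤ) :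
    φ ((z : ZMod q).cast : ℤ) = φ z := by
  have h1 : ∀ k : ℕ, ∀ z : ℤ, φ (z + q * k) = φ z := by
    intro k
    induction k with
    | zero => intro z; simp
    | succ k ih =>
      intro z
      have : z + (q : ℤ) * ((k + 1 : ℕ) : ℤ) = (z + q * k) + q := by push_cast; ring
      rw [this, hφ, ih]
  have h2 : ∀ k : ℤ, ∀ z : ℤ, φ (z + q * k) = φ z := by
    intro k z
    rcases Int.eq_nat_or_neg k with ⟨j, rfl | rfl⟩
    · exact h1 j z
    · have := h1 j (z + q * (-(j : ℤ)))
      rw [← this]
      congr 1
      ring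
  rw [ZMod.coe_intCast]
  have h3 := h2 (-(z / q)) z
  rw [← h3]
  congr 1
  have := Int.emod_add_mul_ediv z q
  linarith

lemma bitv_eq (h : 3 * m ≤ n) {q : ℕ} {r : E m → ZMod q} {w : E m → ℤ}
    (hr : ∀ e, ((w e : ℤ) : ZMod q) = r e) (i j : Fin n) {φ : ℤ → Bool}
    (hφ : ∀ z : ℤ, φ (z + q) = φ z) : φ (wtOf h w i j) = bitv h r i j φ := by
  rw [wtOf_cellE]
  unfold bitv
  rcases cellE h i j with _ | e
  · rfl
  · simp only
    rw [← hr e, per_mod hφ]

end cell

/-- ideal step -/
noncomputable def lstep (h : 3 * m ≤ n) (p : Fin 3 × Fin m → ℤ) {q : ℕ} (r : E m → ZMod q)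
    (st : List ℕ × List (RForm m)) : Act n → List ℕ × List (RForm m)
  | .query qu => gstep h p st qu
  | .bit i j φ => (st.1 ++ [(bitv h r i j φ).toNat], st.2)

/-- ideal run -/
noncomputable def lrun {L R : ℕ} (A : LAlg n L R) (h : 3 * m ≤ n) (p : Fin 3 × Fin m → ℤ)
    (ρ : Fin R → Bool) {q : ℕ} (r : E m → ZMod q) : ℕ → List ℕ × List (RForm m)
  | 0 => ([], [])
  | t + 1 => lstep h p r (lrun A h p ρ r t) (A.next (flagOf h) ρ (lrun A h p ρ r t).1)

/-- the step of the ideal run at time `t` -/
noncomputable def lact {L R : ℕ} (A : LAlg n L R) (h : 3 * m ≤ n) (p : Fin 3 × Fin m → ℤ)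
    (ρ : Fin R → Bool) {q : ℕ} (r : E m → ZMod q) (t : ℕ) : Act n :=
  A.next (flagOf h) ρ (lrun A h p ρ r t).1

section sim

variable {L R : ℕ} (A : LAlg n L R) (h : 3 * m ≤ n) (p : Fin 3 × Fin m → ℤ) (ρ : Fin R → Bool)
  {q : ℕ} (r : E m → ZMod q)

lemma lrun_succ (t : ℕ) : lrun A h p ρ r (t + 1) =
    lstep h p r (lrun A h p ρ r t) (lact A h p ρ r t) := rfl

lemma lrun_mono {t t' : ℕ} (htt : t ≤ t') {f : RForm m} (hf : f ∈ (lrun A h p ρ r t).2) :
    f ∈ (lrun A h p ρ r t').2 := by
  induction htt with
  | refl => exact hf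
  | step _ ih =>
    rw [lrun_succ]
    rcases lact A h p ρ r _ with (f' | ⟨a, b⟩) | ⟨i, j, φ⟩
    · simp only [lstep, gstep]; exact List.mem_append_left _ ih
    · simp only [lstep, gstep]; exact ih
    · simp only [lstep]; exact ih

open Classical in
/-- number of queries of the ideal run before time `t` -/
noncomputable def nq (t : ℕ) : ℕ :=
  ((Finset.range t).filter fun i => ∃ qu, lact A h p ρ r i = Act.query qu).card

open Classical in
/-- number of bits of edge `e` inspected by the ideal run before time `t` -/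
noncomputable def nb (t : ℕ) (e : E m) : ℕ :=
  ((Finset.range t).filter fun s => ∃ i j φ, lact A h p ρ r s = Act.bit i j φ ∧
    cellE h i j = some e).card

lemma nq_succ_of_query {t : ℕ} {qu : Query n} (hq : lact A h p ρ r t = Act.query qu) :
    nq A h p ρ r (t + 1) = nq A h p ρ r t + 1 := by
  classical
  unfold nq
  rw [Finset.range_add_one, Finset.filter_insert, if_pos ⟨qu, hq⟩, Finset.card_insert_of_notMem]
  simp

lemma nq_mono {t t' : ℕ} (htt : t ≤ t') : nq A h p ρ r t ≤ nq A h p ρ r t' := by
  classical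
  unfold nq
  apply Finset.card_le_card
  apply Finset.filter_subset_filter
  intro x hx
  rw [Finset.mem_range] at hx ⊢
  omega

lemma nq_succ_le (t : ℕ) : nq A h p ρ r (t + 1) ≤ nq A h p ρ r t + 1 := by
  classical
  unfold nq
  rw [Finset.range_add_one, Finset.filter_insert]
  split_ifs
  · exact Finset.card_insert_le _ _
  · omega

lemma lrun_length (t : ℕ) : (lrun A h p ρ r t).2.length ≤ nq A h p ρ r t := by
  induction t with
  | zero => simp [lrun, nq]
  | succ t ih =>
    rw [lrun_succ]
    have h2 := nq_mono A h p ρ r (Nat.le_succ t)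
    rcases hq : lact A h p ρ r t with (f' | ⟨a, b⟩) | ⟨i, j, φ⟩
    · have h1 := nq_succ_of_query A h p ρ r hq
      simp only [lstep, gstep, List.length_append, List.length_singleton]
      omega
    · simp only [lstep, gstep]; exact ih.trans h2
    · simp only [lstep]; exact ih.trans h2

lemma lrun_degree {d : ℕ}
    (hA : ∀ fl ρ ans f, A.next fl ρ ans = Act.query (Query.value f) → f.totalDegree ≤ d) (t : ℕ) :
    ∀ f ∈ (lrun A h p ρ r t).2, f.totalDegree ≤ d := by
  induction t with
  | zero => simp [lrun]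
  | succ t ih =>
    intro f hf
    rw [lrun_succ] at hf
    rcases hq : lact A h p ρ r t with (f' | ⟨a, b⟩) | ⟨i, j, φ⟩
    · rw [hq] at hf
      simp only [lstep, gstep] at hf
      rw [List.mem_append, List.mem_singleton] at hf
      rcases hf with hf | hf
      · exact ih f hf
      · rw [hf]
        exact (totalDegree_redP h f').trans (hA _ _ _ _ hq)
    · rw [hq] at hf
      simp only [lstep, gstep] at hf
      exact ih f hf
    · rw [hq] at hf
      simp only [lstep] at hf
      exact ih f hf

/-- Simulation: the real run follows the ideal run up to time `T`. -/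
theorem run_eq_lrun (w : E m → ℤ) (hr : ∀ e, ((w e : ℤ) : ZMod q) = r e)
    (hper : ∀ ans i j φ, A.next (flagOf h) ρ ans = Act.bit i j φ → ∀ z : ℤ, φ (z + q) = φ z)
    {T : ℕ}
    (H1 : ∀ f ∈ (lrun A h p ρ r T).2, ∀ f' ∈ (lrun A h p ρ r T).2, rev w f = rev w f' → f = f')
    (H2 : ∀ t < T, ∀ a b, lact A h p ρ r t = Act.query (Query.sign a b) →
      sgnCode (b + ∑ e, redc h a e * w e) = code p (redc h a) b) (t : ℕ) (ht : t ≤ T) :
    A.run (instOf h w) ρ t = ((lrun A h p ρ r t).1, (lrun A h p ρ r t).2.map (rev w)) := by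
  classical
  induction t with
  | zero => simp [LAlg.run, lrun]
  | succ t ih =>
    have ih' := ih (by omega)
    simp only [LAlg.run]
    rw [ih']
    have hfl : (instOf h w).flag = flagOf h := rfl
    rw [hfl]
    have hmono : ∀ f, f ∈ (lrun A h p ρ r (t + 1)).2 → f ∈ (lrun A h p ρ r T).2 :=
      fun f hf => lrun_mono A h p ρ r ht hf
    have hH2 := H2 t (by omega)
    rw [lrun_succ] at hmono
    rw [lrun_succ]
    have hact : A.next (flagOf h) ρ (lrun A h p ρ r t).1 = lact A h p ρ r t := rfl
    rw [hact]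
    rcases hq : lact A h p ρ r t with (f | ⟨a, b⟩) | ⟨i, j, φ⟩
    · rw [hq] at hmono
      simp only [act, step, lstep, gstep, evalP_instOf']
      rw [List.map_append, List.map_singleton]
      have hl : ((lrun A h p ρ r t).2.map (rev w)).idxOf (rev w (redP h f)) =
          (lrun A h p ρ r t).2.idxOf (redP h f) := by
        apply idxOf_map_eq
        intro y hy hyx
        apply H1 y _ _ _ hyx
        · apply hmono
          simp only [lstep, gstep]
          exact List.mem_append_left _ hy
        · apply hmono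
          simp only [lstep, gstep]
          simp
      congr 2
      simp only [List.cons.injEq, and_true]
      convert hl
    · simp only [act, step, lstep, gstep, evalZ_instOf]
      rw [hH2 a b hq]
    · simp only [act, lstep]
      have h1 : φ ((instOf h w).wt i j) = bitv h r i j φ := bitv_eq h hr i j (hper _ _ _ _ hq)
      rw [h1]

lemma output_eq (w : E m → ℤ) (hr : ∀ e, ((w e : ℤ) : ZMod q) = r e)
    (hper : ∀ ans i j φ, A.next (flagOf h) ρ ans = Act.bit i j φ → ∀ z : ℤ, φ (z + q) = φ z)
    (H1 : ∀ f ∈ (lrun A h p ρ r L).2, ∀ f' ∈ (lrun A h p ρ r L).2, rev w f = rev w f' → f = f')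
    (H2 : ∀ t < L, ∀ a b, lact A h p ρ r t = Act.query (Query.sign a b) →
      sgnCode (b + ∑ e, redc h a e * w e) = code p (redc h a) b) :
    A.output (instOf h w) ρ = A.out (flagOf h) ρ (lrun A h p ρ r L).1 := by
  unfold LAlg.output
  rw [run_eq_lrun A h p ρ r w hr hper H1 H2 L le_rfl]
  rfl

end sim

end Pool.Agent.Helper8.LK
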