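import Mathlib
import Pool.Agent.Helper8.LK.Gen

/-!
# Reading structure, covered triangles and budgets of the ideal run
-/

set_option autoImplicit false
open Finset

namespace Pool.Agent.Helper8.LK

open Pool.Agent.Helper22.ETModel Pool.Agent.Helper22.EP

variable {m n : ℕ} {L R : ℕ} (A : LAlg n L R) (h : 3 * m ≤ n) (p : Fin 3 × Fin m → ℤ)
  (ρ : Fin R → Bool) {q : ℕ}

/-- what the ideal run reads in step `t`: the bit `f` of the residue of edge `e` -/
noncomputable def ract (t : ℕ) (r : E m → ZMod q) : Option (E m × (ZMod q → Bool)) :=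
  match lact A h p ρ r t with
  | .query _ => none
  | .bit i j φ => (cellE h i j).map fun e => (e, fun x => φ (x.cast : ℤ))

lemma lstep_congr {r r' : E m → ZMod q} (st : List ℕ × List (RForm m)) (a : Act n)
    (ha : ∀ i j φ e, a = Act.bit i j φ → cellE h i j = some e →
      φ ((r' e).cast : ℤ) = φ ((r e).cast : ℤ)) :
    lstep h p r' st a = lstep h p r st a := by
  rcases a with qu | ⟨i, j, φ⟩
  · rfl
  · simp only [lstep, bitv]
    rcases hc : cellE h i j with _ | e
    · rfl
    · simp only
      rw [ha i j φ e rfl hc]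

/-- the ideal run is constant on cells -/
theorem lrun_congr {r r' : E m → ZMod q} (s : ℕ)
    (hs : ∀ i < s, ∀ e f, ract A h p ρ i r = some (e, f) → f (r' e) = f (r e)) :
    lrun A h p ρ r' s = lrun A h p ρ r s := by
  induction s with
  | zero => rfl
  | succ s ih =>
    have ih' := ih fun i hi => hs i (by omega)
    rw [lrun_succ, lrun_succ]
    have h1 : lact A h p ρ r' s = lact A h p ρ r s := by
      unfold lact; rw [ih']
    rw [h1, ih']
    apply lstep_congr
    intro i j φ e ha hc
    apply hs s (by omega) e fun x => φ (x.cast : ℤ)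
    unfold ract
    rw [ha]
    simp only [hc, Option.map_some]

lemma ract_congr {r r' : E m → ZMod q} (s : ℕ)
    (hs : ∀ i < s, ∀ e f, ract A h p ρ i r = some (e, f) → f (r' e) = f (r e)) :
    ract A h p ρ s r' = ract A h p ρ s r := by
  have h1 := lrun_congr A h p ρ s hs
  unfold ract lact
  rw [h1]

/-- covered by a pair of value queries -/
def covV (r : E m → ZMod q) (T : Tri m) : Prop :=
  ∃ f ∈ (lrun A h p ρ r L).2, ∃ f' ∈ (lrun A h p ρ r L).2, f ≠ f' ∧
    ∀ w : E m → ℝ, ∑ e ∈ te T, w e = 0 → MvPolynomial.eval w f = MvPolynomial.eval w f'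

/-- hit by a sign query -/
def hitS (r : E m → ZMod q) (T : Tri m) : Prop :=
  ∃ t < L, ∃ a b, lact A h p ρ r t = Act.query (Query.sign a b) ∧
    ∃ c0 : ℤ, c0 ≠ 0 ∧ redc h a = ind T c0

/-- covered or hit -/
def cov (r : E m → ZMod q) (T : Tri m) : Prop := covV A h p ρ r T ∨ hitS A h p ρ r T

lemma lact_congr {r r' : E m → ZMod q} (s : ℕ)
    (hs : ∀ i < s, ∀ e f, ract A h p ρ i r = some (e, f) → f (r' e) = f (r e)) :
    lact A h p ρ r' s = lact A h p ρ r s := by
  have h1 := lrun_congr A h p ρ s hs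
  unfold lact
  rw [h1]

/-- the covered triangles are constant on cells -/
lemma cov_congr {r r' : E m → ZMod q} 
    (hs : ∀ i < L, ∀ e f, ract A h p ρ i r = some (e, f) → f (r' e) = f (r e)) (T : Tri m) :
    cov A h p ρ r' T ↔ cov A h p ρ r T := by
  unfold cov
  apply or_congr
  · unfold covV
    rw [lrun_congr A h p ρ L hs]
  · unfold hitS
    apply exists_congr
    intro t
    apply and_congr_right
    intro ht
    rw [lact_congr A h p ρ t fun i hi => hs i (by omega)]

open Classical in
lemma card_hit_le (r : E m → ZMod q) :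
    (univ.filter fun T : Tri m => hitS A h p ρ r T).card ≤ nq A h p ρ r L := by
  have hch : ∀ T ∈ univ.filter (fun T : Tri m => hitS A h p ρ r T), ∃ t < L, ∃ a b,
      lact A h p ρ r t = Act.query (Query.sign a b) ∧
      ∃ c0 : ℤ, c0 ≠ 0 ∧ redc h a = ind T c0 := by
    intro T hT
    exact (mem_filter.1 hT).2
  choose! f hf using hch
  unfold nq
  apply Finset.card_le_card_of_injOn f
  · intro T hT
    obtain ⟨h1, a, b, h2, _⟩ := hf T hT
    rw [Finset.mem_coe, mem_filter, Finset.mem_range]
    exact ⟨h1, _, h2⟩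
  · intro T hT T' hT' heq
    obtain ⟨_, a, b, h1, c, hc, h2⟩ := hf T hT
    obtain ⟨_, a', b', h1', c', hc', h2'⟩ := hf T' hT'
    rw [heq, h1'] at h1
    simp only [Act.query.injEq, Query.sign.injEq] at h1
    rw [← h1.1] at h2
    exact ind_inj hc (h2.symm.trans h2')

open Classical in
lemma card_covV_le {d : ℕ}
    (hA : ∀ fl ρ ans f, A.next fl ρ ans = Act.query (Query.value f) → f.totalDegree ≤ d)
    (r : E m → ZMod q) {D : ℕ} (hnq : nq A h p ρ r L ≤ D) {l : ℕ} (hl : 1 ≤ l)
    (hD : D < 2 ^ l) :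
    (univ.filter fun T : Tri m => covV A h p ρ r T).card ≤ (468 * (d + 1) * l ^ 3) * D := by
  have hch : ∀ T ∈ univ.filter (fun T : Tri m => covV A h p ρ r T),
      ∃ q' : RForm m × RForm m, q'.1 ∈ (lrun A h p ρ r L).2 ∧ q'.2 ∈ (lrun A h p ρ r L).2 ∧
        q'.1 ≠ q'.2 ∧ ∀ w : E m → ℝ, ∑ e ∈ te T, w e = 0 →
          MvPolynomial.eval w q'.1 = MvPolynomial.eval w q'.2 := by
    intro T hT
    obtain ⟨f, hf, f', hf', hne, h1⟩ := (mem_filter.1 hT).2
    exact ⟨(f, f'), hf, hf', hne, h1⟩
  choose! g hg using hch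
  have hlen : (lrun A h p ρ r L).2.toFinset.card ≤ D :=
    (List.toFinset_card_le _).trans ((lrun_length A h p ρ r L).trans hnq)
  have h1 := cover_bound (τ := Tri m) (te := te) (fun T T' => te_inter T T') card_te
    (pol := fun f : RForm m => f) (d := d) ((lrun A h p ρ r L).2.toFinset)
    (univ.filter fun T : Tri m => covV A h p ρ r T) (fun T => (g T).1) (fun T => (g T).2)
    (fun T hT => List.mem_toFinset.2 (hg T hT).1) (fun T hT => List.mem_toFinset.2 (hg T hT).2.1)
    (fun T hT => (hg T hT).2.2)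
    (by
      intro x hx
      rw [List.mem_toFinset] at hx
      exact lrun_degree A h p ρ r hA L x hx)
    (fun x _ y _ hxy => hxy)
    hl (by omega)
  exact h1.trans (Nat.mul_le_mul_left _ hlen)

open Classical in
/-- few triangles are covered or hit -/
theorem card_cov_le {d : ℕ}
    (hA : ∀ fl ρ ans f, A.next fl ρ ans = Act.query (Query.value f) → f.totalDegree ≤ d)
    (r : E m → ZMod q) {D : ℕ} (hnq : nq A h p ρ r L ≤ D) {l : ℕ} (hl : 1 ≤ l)
    (hD : D < 2 ^ l) :
    (univ.filter fun T : Tri m => cov A h p ρ r T).card ≤ (468 * (d + 1) * l ^ 3) * D + D := by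
  have h1 : (univ.filter fun T : Tri m => cov A h p ρ r T) ⊆
      (univ.filter fun T : Tri m => covV A h p ρ r T) ∪
        (univ.filter fun T : Tri m => hitS A h p ρ r T) := by
    intro T hT
    rw [mem_filter] at hT
    rw [mem_union, mem_filter, mem_filter]
    rcases hT.2 with h2 | h2
    · exact Or.inl ⟨Finset.mem_univ _, h2⟩
    · exact Or.inr ⟨Finset.mem_univ _, h2⟩
  refine (Finset.card_le_card h1).trans ((Finset.card_union_le _ _).trans ?_)
  exact Nat.add_le_add (card_covV_le A h p ρ hA r hnq hl hD)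
    ((card_hit_le A h p ρ r).trans hnq)

/-- Generic instances exist: for every residue vector and every short list of polynomials of
degree at most `d` there is a valid instance with these residues on which different polynomials
of the list have different values and the sign queries have their ideal answers. -/
def Generic (n : ℕ) {m : ℕ} (h : 3 * m ≤ n) (p : Fin 3 × Fin m → ℤ) (q D d r c : ℕ) : Prop :=
  ∀ x : E m → ZMod q, ∀ l : List (RForm m), l.length ≤ D → (∀ f ∈ l, f.totalDegree ≤ d) →
    ∃ w : E m → ℤ, (∀ e, ((w e : ℤ) : ZMod q) = x e) ∧ (instOf h w).Valid ∧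
      (∀ f ∈ l, ∀ f' ∈ l, rev w f = rev w f' → f = f') ∧
      ∀ a b, SignOK n r c a b → sgnCode (b + ∑ e, redc h a e * w e) = code p (redc h a) b

section budget

variable {D d sr sc b : ℕ}

lemma real_queries (I : Inst n) (T : ℕ) (x : E m → ZMod q)
    (hI : I.flag = flagOf h)
    (hrun : ∀ t ≤ T, (A.run I ρ t).1 = (lrun A h p ρ x t).1) (hT : T < L) :
    nq A h p ρ x (T + 1) ≤ A.queries I ρ := by
  classical
  unfold nq LAlg.queries
  apply Finset.card_le_card
  intro t ht
  rw [mem_filter, Finset.mem_range] at ht ⊢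
  obtain ⟨h1, qu, h2⟩ := ht
  refine ⟨by omega, qu, ?_⟩
  rw [hI, hrun t (by omega)]
  exact h2

/-- the ideal run asks at most `D` queries -/
theorem nq_le (hW : A.Within D b)
    (hA1 : ∀ fl ρ ans f, A.next fl ρ ans = Act.query (Query.value f) → f.totalDegree ≤ d)
    (hA2 : ∀ fl ρ ans a b, A.next fl ρ ans = Act.query (Query.sign a b) → SignOK n sr sc a b)
    (hper : ∀ ans i j φ, A.next (flagOf h) ρ ans = Act.bit i j φ → ∀ z : ℤ, φ (z + q) = φ z)
    (hgen : Generic n h p q D d sr sc) (x : E m → ZMod q) (t : ℕ) (ht : t ≤ L) :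
    nq A h p ρ x t ≤ D := by
  induction t with
  | zero => simp [nq]
  | succ t ih =>
    have ih' := ih (by omega)
    obtain ⟨w, hw1, hw2, hw3, hw4⟩ := hgen x (lrun A h p ρ x t).2
      ((lrun_length A h p ρ x t).trans ih') (lrun_degree A h p ρ x hA1 t)
    have hrun := run_eq_lrun A h p ρ x w hw1 hper (T := t) hw3
      (fun s _ a b hq => hw4 a b (hA2 _ _ _ _ _ hq))
    refine (real_queries A h p ρ (instOf h w) t x rfl (fun s hs => ?_) (by omega)).trans
      (hW _ hw2 ρ).1
    rw [hrun s hs]

open Classical in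
/-- the ideal run inspects at most `b` bits of every edge -/
theorem card_ract_le (hW : A.Within D b)
    (hA1 : ∀ fl ρ ans f, A.next fl ρ ans = Act.query (Query.value f) → f.totalDegree ≤ d)
    (hA2 : ∀ fl ρ ans a b, A.next fl ρ ans = Act.query (Query.sign a b) → SignOK n sr sc a b)
    (hper : ∀ ans i j φ, A.next (flagOf h) ρ ans = Act.bit i j φ → ∀ z : ℤ, φ (z + q) = φ z)
    (hgen : Generic n h p q D d sr sc) (x : E m → ZMod q) (e : E m) :
    ((Finset.range L).filter fun t => ∃ f, ract A h p ρ t x = some (e, f)).card ≤ b := by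
  obtain ⟨w, hw1, hw2, hw3, hw4⟩ := hgen x (lrun A h p ρ x L).2
    ((lrun_length A h p ρ x L).trans (nq_le A h p ρ hW hA1 hA2 hper hgen x L le_rfl))
    (lrun_degree A h p ρ x hA1 L)
  have hrun := run_eq_lrun A h p ρ x w hw1 hper (T := L) hw3
    (fun s _ a b hq => hw4 a b (hA2 _ _ _ _ _ hq))
  refine le_trans ?_ ((hW _ hw2 ρ).2 (enc h e).1 (enc h e).2)
  unfold LAlg.bits
  apply Finset.card_le_card
  intro t ht
  rw [mem_filter, Finset.mem_range] at ht ⊢
  obtain ⟨h1, f, h2⟩ := ht
  refine ⟨h1, ?_⟩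
  have h3 : A.next (instOf h w).flag ρ (A.run (instOf h w) ρ t).1 = lact A h p ρ x t := by
    rw [hrun t (by omega)]; rfl
  rw [h3]
  unfold ract at h2
  rcases hq : lact A h p ρ x t with qu | ⟨i, j, φ⟩
  · rw [hq] at h2; simp at h2
  · rw [hq] at h2
    simp only at h2
    refine ⟨φ, ?_⟩
    rcases hc : cellE h i j with _ | e'
    · rw [hc] at h2; simp at h2
    · rw [hc] at h2
      simp only [Option.map_some, Option.some.injEq, Prod.mk.injEq] at h2
      obtain ⟨rfl, _⟩ := h2
      rcases cellE_spec h hc with h4 | h4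
      · left; rw [h4]
      · right; rw [h4]

end budget

end Pool.Agent.Helper8.LK
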