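import Mathlib
import Pool.Agent.Helper22.ETGeneric
import Pool.Agent.Helper22.ETNoise
import Pool.Agent.Helper8.LK.Defs

set_option autoImplicit false
open Finset

namespace Pool.Agent.Helper8.LK

open Pool.Agent.Helper22.ETModel Pool.Agent.Helper22.EP

/-- The potentials `p` together with the constants `B`, `G` hide the noise and the planted triangle
from all admissible sign queries with parameters `r`, `c`. -/
structure Hides (n : ℕ) {m : ℕ} (h : 3 * m ≤ n) (p : Fin 3 × Fin m → ℤ) (B G r c : ℕ) :
    Prop where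
  validB : ∀ g : E m → Fin (G + 1), (instOf h (wB p B G g)).Valid
  validT : ∀ (T : Tri m) (g : E m → Fin (G + 1)), (instOf h (wT p B G T g)).Valid
  noB : ∀ g : E m → Fin (G + 1), ¬ (instOf h (wB p B G g)).Yes
  yesT : ∀ (T : Tri m) (g : E m → Fin (G + 1)), (instOf h (wT p B G T g)).Yes
  signB : ∀ a b, SignOK n r c a b → ∀ g : E m → Fin (G + 1),
    sgnCode (b + ∑ e, redc h a e * wB p B G g e) = code p (redc h a) b
  signT : ∀ a b, SignOK n r c a b → ∀ T : Tri m, (∀ c0 : ℤ, c0 ≠ 0 → redc h a ≠ ind T c0) →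
    ∀ g : E m → Fin (G + 1),
    sgnCode (b + ∑ e, redc h a e * wT p B G T g e) = code p (redc h a) b

end Pool.Agent.Helper8.LK
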