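import Mathlib
import Pool.Agent.Helper8.LK.Par
import Pool.Agent.Helper8.LK.Budget
import Pool.Agent.Helper14.LK.Law
import Pool.Agent.Helper95.LK.Reading

/-!
# From real runs on random instances to the ideal run on random residues
-/

set_option autoImplicit false
open Finset

namespace Pool.Agent.Helper8.LK

open Pool.Agent.Helper22.ETModel Pool.Agent.Helper22.EP Pool.Agent.Helper14.LK

variable {m n : ℕ} {L R : ℕ}

/-- the reading of the residues by the ideal run -/
noncomputable def reading (A : LAlg n L R) (h : 3 * m ≤ n) (p : Fin 3 × Fin m → ℤ)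
    (ρ : Fin R → Bool) (q : ℕ) : Helper95.LK.Reading (E m) (ZMod q) where
  act t r := ract A h p ρ t r
  adapted s r r' hs := ract_congr A h p ρ (r := r) (r' := r') s hs

/-- output of the ideal run -/
noncomputable def lout (A : LAlg n L R) (h : 3 * m ≤ n) (p : Fin 3 × Fin m → ℤ)
    (ρ : Fin R → Bool) {q : ℕ} (r : E m → ZMod q) : Bool :=
  A.out (flagOf h) ρ (lrun A h p ρ r L).1

open Classical in
/-- the triangles covered or hit by the ideal run -/
noncomputable def Cov (A : LAlg n L R) (h : 3 * m ≤ n) (p : Fin 3 × Fin m → ℤ)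
    (ρ : Fin R → Bool) {q : ℕ} (r : E m → ZMod q) : Finset (Tri m) :=
  univ.filter fun T => cov A h p ρ r T

lemma law_B' {m : ℕ} (p : Fin 3 × Fin m → ℤ) (B G q : ℕ) [NeZero q]
    (hR : Fintype.card (E m) * q ≤ G + 1) (P : (E m → ZMod q) → Prop) [DecidablePred P] :
    |((univ.filter fun g : E m → Fin (G + 1) => P (resB q p B G g)).card : ℝ) /
        ((G + 1 : ℕ) : ℝ) ^ Fintype.card (E m) -
      ((univ.filter P).card : ℝ) / (q : ℝ) ^ Fintype.card (E m)| ≤
      2 * (Fintype.card (E m) * q / ((G + 1 : ℕ) : ℝ)) := by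
  convert law_B p B G q hR P

lemma law_T' {m : ℕ} (p : Fin 3 × Fin m → ℤ) (B G q : ℕ) [NeZero q] (T : Tri m)
    (hR : Fintype.card (E m) * q ≤ G + 1) (P : (E m → ZMod q) → Prop) [DecidablePred P] :
    |((univ.filter fun g : E m → Fin (G + 1) => P (resT q p B G T g)).card : ℝ) /
        ((G + 1 : ℕ) : ℝ) ^ Fintype.card (E m) -
      ((univ.filter fun r : E m → ZMod q =>
        P r ∧ r (tk T 0) + r (tk T 1) + r (tk T 2) = 0).card : ℝ) * q /
          (q : ℝ) ^ Fintype.card (E m)| ≤
      2 * (Fintype.card (E m) * q / ((G + 1 : ℕ) : ℝ)) := by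
  convert law_T p B G q T hR P

section cells

variable (A : LAlg n L R) (h : 3 * m ≤ n) (p : Fin 3 × Fin m → ℤ) (ρ : Fin R → Bool) {q : ℕ}
  [NeZero q]

lemma same_of_cell {r r' : E m → ZMod q}
    (hc : ∀ e, r' e ∈ (reading A h p ρ q).cell L r e) :
    ∀ i < L, ∀ e f, ract A h p ρ i r = some (e, f) → f (r' e) = f (r e) := by
  intro i hi e f hf
  exact (Helper95.LK.Reading.mem_cell _).1 (hc e) i hi f hf

lemma lout_congr {r r' : E m → ZMod q}
    (hc : ∀ e, r' e ∈ (reading A h p ρ q).cell L r e) :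
    lout A h p ρ r' = lout A h p ρ r := by
  unfold lout
  rw [lrun_congr A h p ρ L (same_of_cell A h p ρ hc)]

lemma Cov_congr {r r' : E m → ZMod q}
    (hc : ∀ e, r' e ∈ (reading A h p ρ q).cell L r e) :
    Cov A h p ρ r' = Cov A h p ρ r := by
  classical
  unfold Cov
  ext T
  rw [mem_filter, mem_filter, cov_congr A h p ρ (same_of_cell A h p ρ hc)]

end cells

section glue

variable (A : LAlg n L R) (h : 3 * m ≤ n) (p : Fin 3 × Fin m → ℤ) (B G : ℕ)
  {D d sr sc b : ℕ} (ρ : Fin R → Bool) {q : ℕ} [NeZero q]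

/-- instances generic for a short list exist with every residue vector -/
lemma generic_of (hH : Hides n h p B G sr sc) (hbig : D ^ 2 * d < (G + 1) / q) :
    Generic n h p q D d sr sc := by
  intro x l hl hd
  obtain ⟨g, hg, hgen⟩ := exists_generic p B G q d D hbig x l hl hd
  exact ⟨wB p B G g, fun e => congrFun hg e, hH.validB g, hgen, fun a b hab => hH.signB a b hab g⟩

/-- at most `b` bits of every edge are read -/
lemma used_le (hH : Hides n h p B G sr sc) (hbig : D ^ 2 * d < (G + 1) / q)
    (hW : A.Within D b)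
    (hA1 : ∀ fl ρ ans f, A.next fl ρ ans = Act.query (Query.value f) → f.totalDegree ≤ d)
    (hA2 : ∀ fl ρ ans a b, A.next fl ρ ans = Act.query (Query.sign a b) → SignOK n sr sc a b)
    (hper : ∀ ans i j φ, A.next (flagOf h) ρ ans = Act.bit i j φ → ∀ z : ℤ, φ (z + q) = φ z)
    (r : E m → ZMod q) (e : E m) : (reading A h p ρ q).used L r e ≤ b := by
  have h1 := card_ract_le A h p ρ hW hA1 hA2 hper (generic_of h p B G hH hbig) r e
  unfold Helper95.LK.Reading.used
  refine le_trans (le_of_eq ?_) h1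
  apply congrArg Finset.card
  ext t
  simp only [mem_filter]
  rfl

/-- few triangles are covered or hit -/
lemma card_Cov_le (hH : Hides n h p B G sr sc) (hbig : D ^ 2 * d < (G + 1) / q)
    (hW : A.Within D b)
    (hA1 : ∀ fl ρ ans f, A.next fl ρ ans = Act.query (Query.value f) → f.totalDegree ≤ d)
    (hA2 : ∀ fl ρ ans a b, A.next fl ρ ans = Act.query (Query.sign a b) → SignOK n sr sc a b)
    (hper : ∀ ans i j φ, A.next (flagOf h) ρ ans = Act.bit i j φ → ∀ z : ℤ, φ (z + q) = φ z)
    {l : ℕ} (hl : 1 ≤ l) (hD : D < 2 ^ l) (r : E m → ZMod q) :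
    (Cov A h p ρ r).card ≤ (468 * (d + 1) * l ^ 3) * D + D :=
  card_cov_le A h p ρ hA1 r
    (nq_le A h p ρ hW hA1 hA2 hper (generic_of h p B G hH hbig) r L le_rfl) hl hD

/-- the error of the passage to residues -/
noncomputable def err (m G q D d : ℕ) : ℝ :=
  2 * (Fintype.card (E m) * q / ((G + 1 : ℕ) : ℝ)) + (D ^ 2 * d : ℕ) / (((G + 1) / q : ℕ) : ℝ)

lemma frac_le {x X M K N : ℕ} (hX : 0 < X) (hM : 0 < M) (hx : x * M ≤ K * (N * X)) :
    (x : ℝ) / X ≤ ((K * N : ℕ) : ℝ) / (M : ℝ) := by
  rw [div_le_div_iff₀ (by exact_mod_cast hX) (by exact_mod_cast hM)]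
  have : x * M ≤ K * N * X := by rw [mul_assoc]; exact hx
  exact_mod_cast this

open Classical in
/-- (MB) on the random null instance the output is `false` at most as often as in the ideal run -/
theorem out_null (hH : Hides n h p B G sr sc) (hbig : D ^ 2 * d < (G + 1) / q)
    (hR : Fintype.card (E m) * q ≤ G + 1)
    (hW : A.Within D b)
    (hA1 : ∀ fl ρ ans f, A.next fl ρ ans = Act.query (Query.value f) → f.totalDegree ≤ d)
    (hA2 : ∀ fl ρ ans a b, A.next fl ρ ans = Act.query (Query.sign a b) → SignOK n sr sc a b)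
    (hper : ∀ ans i j φ, A.next (flagOf h) ρ ans = Act.bit i j φ → ∀ z : ℤ, φ (z + q) = φ z) :
    ((univ.filter fun g : E m → Fin (G + 1) =>
        A.output (instOf h (wB p B G g)) ρ = false).card : ℝ) /
        ((G + 1 : ℕ) : ℝ) ^ Fintype.card (E m) ≤
      ((univ.filter fun r : E m → ZMod q => lout A h p ρ r = false).card : ℝ) /
        (q : ℝ) ^ Fintype.card (E m) + err m G q D d := by
  have hgen := generic_of (n := n) h p B G (sr := sr) (sc := sc) (D := D) (d := d) (q := q)
    hH hbig
  have h1 := card_badC0 p B G q d D (fun r => (lrun A h p ρ r L).2)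
    (fun r => (lrun_length A h p ρ r L).trans (nq_le A h p ρ hW hA1 hA2 hper hgen r L le_rfl))
    (fun r => lrun_degree A h p ρ r hA1 L)
  set bad := univ.filter fun g : E m → Fin (G + 1) =>
    ∃ f ∈ (lrun A h p ρ (resB q p B G g) L).2, ∃ f' ∈ (lrun A h p ρ (resB q p B G g) L).2,
      f ≠ f' ∧ rev (wB p B G g) f = rev (wB p B G g) f' with hbad
  have h2 := law_B' p B G q hR (fun r => lout A h p ρ r = false)
  have h3 : (univ.filter fun g : E m → Fin (G + 1) =>
        A.output (instOf h (wB p B G g)) ρ = false) ⊆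
      (univ.filter fun g : E m → Fin (G + 1) => lout A h p ρ (resB q p B G g) = false) ∪ bad := by
    intro g hg
    rw [mem_filter] at hg
    rw [mem_union, mem_filter]
    by_cases hb : g ∈ bad
    · exact Or.inr hb
    · left
      refine ⟨Finset.mem_univ _, ?_⟩
      rw [← hg.2]
      symm
      apply output_eq A h p ρ (resB q p B G g) (wB p B G g) (fun e => rfl) hper
      · intro f hf f' hf' heq
        by_contra hne
        apply hb
        rw [hbad, mem_filter]
        exact ⟨Finset.mem_univ _, f, hf, f', hf', hne, heq⟩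
      · intro t _ a b hq
        exact hH.signB a b (hA2 _ _ _ _ _ hq) g
  have hcard : Fintype.card (E m → Fin (G + 1)) = (G + 1) ^ Fintype.card (E m) := by
    rw [Fintype.card_fun, Fintype.card_fin]
  have hpos : (0 : ℝ) < ((G + 1 : ℕ) : ℝ) ^ Fintype.card (E m) := by positivity
  have h4 : ((univ.filter fun g : E m → Fin (G + 1) =>
        A.output (instOf h (wB p B G g)) ρ = false).card : ℝ) ≤
      ((univ.filter fun g : E m → Fin (G + 1) => lout A h p ρ (resB q p B G g) = false).card : ℝ)
        + (bad.card : ℝ) := by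
    exact_mod_cast (Finset.card_le_card h3).trans (Finset.card_union_le _ _)
  have h5 : (bad.card : ℝ) / ((G + 1 : ℕ) : ℝ) ^ Fintype.card (E m) ≤
      ((D ^ 2 * d : ℕ) : ℝ) / (((G + 1) / q : ℕ) : ℝ) := by
    have h6 := frac_le (x := bad.card) (X := (G + 1) ^ Fintype.card (E m)) (M := (G + 1) / q)
      (K := D ^ 2) (N := d) (by positivity) (by omega) (by rw [hcard] at h1; exact h1)
    rw [Nat.cast_pow] at h6
    exact h6
  have h7 := (abs_le.1 h2).2
  unfold err
  calc _ ≤ (((univ.filter fun g : E m → Fin (G + 1) =>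
            lout A h p ρ (resB q p B G g) = false).card : ℝ) + (bad.card : ℝ)) /
            ((G + 1 : ℕ) : ℝ) ^ Fintype.card (E m) := by gcongr
    _ = ((univ.filter fun g : E m → Fin (G + 1) =>
            lout A h p ρ (resB q p B G g) = false).card : ℝ) /
            ((G + 1 : ℕ) : ℝ) ^ Fintype.card (E m) +
          (bad.card : ℝ) / ((G + 1 : ℕ) : ℝ) ^ Fintype.card (E m) := add_div _ _ _
    _ ≤ _ := by linarith

open Classical in
/-- (MT) on the random planted instance the output is `false` at least as often as in the ideal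
run outside the covered triangles -/
theorem out_planted (hH : Hides n h p B G sr sc) (hbig : D ^ 2 * d < (G + 1) / q)
    (hR : Fintype.card (E m) * q ≤ G + 1)
    (hW : A.Within D b)
    (hA1 : ∀ fl ρ ans f, A.next fl ρ ans = Act.query (Query.value f) → f.totalDegree ≤ d)
    (hA2 : ∀ fl ρ ans a b, A.next fl ρ ans = Act.query (Query.sign a b) → SignOK n sr sc a b)
    (hper : ∀ ans i j φ, A.next (flagOf h) ρ ans = Act.bit i j φ → ∀ z : ℤ, φ (z + q) = φ z)
    (T : Tri m) :
    (q : ℝ) * ((univ.filter fun r : E m → ZMod q => ∑ i, r (tk T i) = 0 ∧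
        lout A h p ρ r = false ∧ T ∉ Cov A h p ρ r).card : ℝ) /
        (q : ℝ) ^ Fintype.card (E m) - err m G q D d ≤
    ((univ.filter fun g : E m → Fin (G + 1) =>
        A.output (instOf h (wT p B G T g)) ρ = false).card : ℝ) /
        ((G + 1 : ℕ) : ℝ) ^ Fintype.card (E m) := by
  have hgen := generic_of (n := n) h p B G (sr := sr) (sc := sc) (D := D) (d := d) (q := q)
    hH hbig
  have h1 := card_badCT p B G q d D T (fun r => (lrun A h p ρ r L).2)
    (fun r => (lrun_length A h p ρ r L).trans (nq_le A h p ρ hW hA1 hA2 hper hgen r L le_rfl))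
    (fun r => lrun_degree A h p ρ r hA1 L)
  set bad := univ.filter fun g : E m → Fin (G + 1) =>
    ∃ f ∈ (lrun A h p ρ (resT q p B G T g) L).2, ∃ f' ∈ (lrun A h p ρ (resT q p B G T g) L).2,
      (¬ ∀ w : E m → ℝ, ∑ e ∈ te T, w e = 0 → MvPolynomial.eval w f = MvPolynomial.eval w f') ∧
        rev (wT p B G T g) f = rev (wT p B G T g) f' with hbad
  have h2 := law_T' p B G q T hR (fun r => lout A h p ρ r = false ∧ T ∉ Cov A h p ρ r)
  have h3 : (univ.filter fun g : E m → Fin (G + 1) => lout A h p ρ (resT q p B G T g) = false ∧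
        T ∉ Cov A h p ρ (resT q p B G T g)) ⊆
      (univ.filter fun g : E m → Fin (G + 1) =>
        A.output (instOf h (wT p B G T g)) ρ = false) ∪ bad := by
    intro g hg
    rw [mem_filter] at hg
    obtain ⟨_, hg1, hg2⟩ := hg
    rw [mem_union, mem_filter]
    by_cases hb : g ∈ bad
    · exact Or.inr hb
    · left
      refine ⟨Finset.mem_univ _, ?_⟩
      rw [← hg1]
      have hcov : ¬ cov A h p ρ (resT q p B G T g) T := by
        intro hc
        apply hg2
        unfold Cov
        rw [mem_filter]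
        exact ⟨Finset.mem_univ _, hc⟩
      apply output_eq A h p ρ (resT q p B G T g) (wT p B G T g) (fun e => rfl) hper
      · intro f hf f' hf' heq
        by_contra hne
        by_cases hall : ∀ w : E m → ℝ, ∑ e ∈ te T, w e = 0 →
            MvPolynomial.eval w f = MvPolynomial.eval w f'
        · exact hcov (Or.inl ⟨f, hf, f', hf', hne, hall⟩)
        · apply hb
          rw [hbad, mem_filter]
          exact ⟨Finset.mem_univ _, f, hf, f', hf', hall, heq⟩
      · intro t ht a b hq
        apply hH.signT a b (hA2 _ _ _ _ _ hq) T _ g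
        intro c0 hc0 hc
        exact hcov (Or.inr ⟨t, ht, a, b, hq, c0, hc0, hc⟩)
  have hcard : Fintype.card (E m → Fin (G + 1)) = (G + 1) ^ Fintype.card (E m) := by
    rw [Fintype.card_fun, Fintype.card_fin]
  have hpos : (0 : ℝ) < ((G + 1 : ℕ) : ℝ) ^ Fintype.card (E m) := by positivity
  have h4 : ((univ.filter fun g : E m → Fin (G + 1) => lout A h p ρ (resT q p B G T g) = false ∧
        T ∉ Cov A h p ρ (resT q p B G T g)).card : ℝ) ≤
      ((univ.filter fun g : E m → Fin (G + 1) =>
        A.output (instOf h (wT p B G T g)) ρ = false).card : ℝ) + (bad.card : ℝ) := by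
    exact_mod_cast (Finset.card_le_card h3).trans (Finset.card_union_le _ _)
  have h5 : (bad.card : ℝ) / ((G + 1 : ℕ) : ℝ) ^ Fintype.card (E m) ≤
      ((D ^ 2 * d : ℕ) : ℝ) / (((G + 1) / q : ℕ) : ℝ) := by
    have h6 := frac_le (x := bad.card) (X := (G + 1) ^ Fintype.card (E m)) (M := (G + 1) / q)
      (K := D ^ 2) (N := d) (by positivity) (by omega) (by rw [hcard] at h1; exact h1)
    rw [Nat.cast_pow] at h6
    exact h6
  have h7 := (abs_le.1 h2).1
  have h8 : (univ.filter fun r : E m → ZMod q =>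
      (lout A h p ρ r = false ∧ T ∉ Cov A h p ρ r) ∧
        r (tk T 0) + r (tk T 1) + r (tk T 2) = 0) =
      univ.filter fun r : E m → ZMod q => ∑ i, r (tk T i) = 0 ∧
        lout A h p ρ r = false ∧ T ∉ Cov A h p ρ r := by
    apply Finset.filter_congr
    intro r _
    rw [Fin.sum_univ_three]
    tauto
  rw [h8] at h7
  have h9 : ((univ.filter fun g : E m → Fin (G + 1) => lout A h p ρ (resT q p B G T g) = false ∧
        T ∉ Cov A h p ρ (resT q p B G T g)).card : ℝ) /
        ((G + 1 : ℕ) : ℝ) ^ Fintype.card (E m) ≤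
      ((univ.filter fun g : E m → Fin (G + 1) =>
        A.output (instOf h (wT p B G T g)) ρ = false).card : ℝ) /
        ((G + 1 : ℕ) : ℝ) ^ Fintype.card (E m) +
      (bad.card : ℝ) / ((G + 1 : ℕ) : ℝ) ^ Fintype.card (E m) := by
    rw [← add_div]
    gcongr
  have h10 : (q : ℝ) * ((univ.filter fun r : E m → ZMod q => ∑ i, r (tk T i) = 0 ∧
        lout A h p ρ r = false ∧ T ∉ Cov A h p ρ r).card : ℝ) /
        (q : ℝ) ^ Fintype.card (E m) = ((univ.filter fun r : E m → ZMod q =>
        ∑ i, r (tk T i) = 0 ∧ lout A h p ρ r = false ∧ T ∉ Cov A h p ρ r).card : ℝ) * q /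
        (q : ℝ) ^ Fintype.card (E m) := by rw [mul_comm]
  rw [h10]
  unfold err
  linarith

end glue

end Pool.Agent.Helper8.LK
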