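import Mathlib
import Pool.Agent.Helper8.LK.Glue

set_option autoImplicit false
open Finset

namespace Pool.Agent.Helper8.LK

open Pool.Agent.Helper22.ETModel Pool.Agent.Helper22.EP

lemma card_E (m : ℕ) : Fintype.card (E m) = 3 * m ^ 2 := by
  simp [E, Fintype.card_prod]; ring

section

variable {n m e q D d : ℕ}

lemma pow_le_div (hn : 100 ≤ n) (hq1 : 1 ≤ q) (hq : q ≤ n ^ e) :
    n ^ 12 ≤ (n ^ (12 + e) + 1) / q := by
  rw [Nat.le_div_iff_mul_le (by omega)]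
  calc n ^ 12 * q ≤ n ^ 12 * n ^ e := Nat.mul_le_mul_left _ hq
    _ = n ^ (12 + e) := by rw [← pow_add]
    _ ≤ _ := Nat.le_succ _

lemma sq_mul_le (hD : D ≤ n ^ 3) (hd : d ≤ n ^ 3) : D ^ 2 * d ≤ n ^ 9 := by
  calc D ^ 2 * d ≤ (n ^ 3) ^ 2 * n ^ 3 := Nat.mul_le_mul (Nat.pow_le_pow_left hD 2) hd
    _ = n ^ 9 := by rw [← pow_mul, ← pow_add]

lemma big_of (hn : 100 ≤ n) (hq1 : 1 ≤ q) (hq : q ≤ n ^ e) (hD : D ≤ n ^ 3) (hd : d ≤ n ^ 3) :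
    D ^ 2 * d < (n ^ (12 + e) + 1) / q := by
  refine lt_of_lt_of_le ?_ (pow_le_div hn hq1 hq)
  refine lt_of_le_of_lt (sq_mul_le hD hd) ?_
  exact Nat.pow_lt_pow_right (by omega) (by norm_num)

lemma card_mul_le (hn : 100 ≤ n) (h3 : 3 * m ≤ n) (hq : q ≤ n ^ e) :
    Fintype.card (E m) * q * n ^ 10 ≤ n ^ (12 + e) := by
  rw [card_E]
  have h1 : 3 * m ^ 2 ≤ n ^ 2 := by nlinarith
  calc 3 * m ^ 2 * q * n ^ 10 ≤ n ^ 2 * n ^ e * n ^ 10 :=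
        Nat.mul_le_mul_right _ (Nat.mul_le_mul h1 hq)
    _ = n ^ (12 + e) := by rw [← pow_add, ← pow_add]; congr 1; omega

lemma card_le_of (hn : 100 ≤ n) (h3 : 3 * m ≤ n) (hq : q ≤ n ^ e) :
    Fintype.card (E m) * q ≤ n ^ (12 + e) + 1 := by
  have h1 := card_mul_le hn h3 hq
  have h2 : 1 ≤ n ^ 10 := Nat.one_le_pow _ _ (by omega)
  have h3 : Fintype.card (E m) * q * 1 ≤ Fintype.card (E m) * q * n ^ 10 :=
    Nat.mul_le_mul_left _ h2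
  omega

lemma err_le (hn : 1000 ≤ n) (h3 : 3 * m ≤ n) (hq1 : 1 ≤ q) (hq : q ≤ n ^ e) (hD : D ≤ n ^ 3)
    (hd : d ≤ n ^ 3) : err m (n ^ (12 + e)) q D d ≤ 1 / 200 := by
  have hn' : 100 ≤ n := by omega
  have hn1 : (1000 : ℝ) ≤ n := by exact_mod_cast hn
  have h1 : (Fintype.card (E m) * q : ℝ) * (n : ℝ) ^ 10 ≤ (n : ℝ) ^ (12 + e) := by
    exact_mod_cast card_mul_le hn' h3 hq
  have h2 : ((D ^ 2 * d : ℕ) : ℝ) ≤ (n : ℝ) ^ 9 := by exact_mod_cast sq_mul_le hD hd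
  have h4 : (n : ℝ) ^ 12 ≤ (((n ^ (12 + e) + 1) / q : ℕ) : ℝ) := by
    exact_mod_cast pow_le_div hn' hq1 hq
  have h5 : (1000 : ℝ) ≤ (n : ℝ) ^ 10 := by
    calc (1000 : ℝ) ≤ n := hn1
      _ = (n : ℝ) ^ 1 := by ring
      _ ≤ (n : ℝ) ^ 10 := pow_le_pow_right₀ (by linarith) (by norm_num)
  have h6 : (1000 : ℝ) * (n : ℝ) ^ 9 ≤ (n : ℝ) ^ 12 := by
    have : (n : ℝ) ^ 12 = (n : ℝ) ^ 9 * (n : ℝ) ^ 3 := by ring
    rw [this]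
    have h7 : (1000 : ℝ) ≤ (n : ℝ) ^ 3 := by
      calc (1000 : ℝ) ≤ n := hn1
        _ = (n : ℝ) ^ 1 := by ring
        _ ≤ (n : ℝ) ^ 3 := pow_le_pow_right₀ (by linarith) (by norm_num)
    nlinarith [show (0 : ℝ) < (n : ℝ) ^ 9 by positivity]
  have hG : (0 : ℝ) < ((n ^ (12 + e) + 1 : ℕ) : ℝ) := by positivity
  have h8 : (Fintype.card (E m) * q : ℝ) / ((n ^ (12 + e) + 1 : ℕ) : ℝ) ≤ 1 / 1000 := by
    rw [div_le_div_iff₀ hG (by norm_num)]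
    have h9 : (0 : ℝ) ≤ (Fintype.card (E m) * q : ℝ) := by positivity
    have h10 : (Fintype.card (E m) * q : ℝ) * 1000 ≤ (n : ℝ) ^ (12 + e) :=
      (mul_le_mul_of_nonneg_left h5 h9).trans h1
    push_cast
    linarith
  have h11 : ((D ^ 2 * d : ℕ) : ℝ) / (((n ^ (12 + e) + 1) / q : ℕ) : ℝ) ≤ 1 / 1000 := by
    have h12 : (0 : ℝ) < (n : ℝ) ^ 12 := by positivity
    rw [div_le_div_iff₀ (by linarith) (by norm_num)]
    linarith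
  unfold err
  linarith

lemma err_le' (hn : 10000 ≤ n) (h3 : 3 * m ≤ n) (hq1 : 1 ≤ q) (hq : q ≤ n ^ e) (hD : D ≤ n ^ 3)
    (hd : d ≤ n ^ 3) : err m (n ^ (12 + e)) q D d ≤ 1 / 400 := by
  have hn' : 100 ≤ n := by omega
  have hn1 : (10000 : ℝ) ≤ n := by exact_mod_cast hn
  have h1 : (Fintype.card (E m) * q : ℝ) * (n : ℝ) ^ 10 ≤ (n : ℝ) ^ (12 + e) := by
    exact_mod_cast card_mul_le hn' h3 hq
  have h2 : ((D ^ 2 * d : ℕ) : ℝ) ≤ (n : ℝ) ^ 9 := by exact_mod_cast sq_mul_le hD hd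
  have h4 : (n : ℝ) ^ 12 ≤ (((n ^ (12 + e) + 1) / q : ℕ) : ℝ) := by
    exact_mod_cast pow_le_div hn' hq1 hq
  have h5 : (10000 : ℝ) ≤ (n : ℝ) ^ 10 := by
    calc (10000 : ℝ) ≤ n := hn1
      _ = (n : ℝ) ^ 1 := by ring
      _ ≤ (n : ℝ) ^ 10 := pow_le_pow_right₀ (by linarith) (by norm_num)
  have h6 : (10000 : ℝ) * (n : ℝ) ^ 9 ≤ (n : ℝ) ^ 12 := by
    have : (n : ℝ) ^ 12 = (n : ℝ) ^ 9 * (n : ℝ) ^ 3 := by ring
    rw [this]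
    have h7 : (10000 : ℝ) ≤ (n : ℝ) ^ 3 := by
      calc (10000 : ℝ) ≤ n := hn1
        _ = (n : ℝ) ^ 1 := by ring
        _ ≤ (n : ℝ) ^ 3 := pow_le_pow_right₀ (by linarith) (by norm_num)
    nlinarith [show (0 : ℝ) < (n : ℝ) ^ 9 by positivity]
  have hG : (0 : ℝ) < ((n ^ (12 + e) + 1 : ℕ) : ℝ) := by positivity
  have h8 : (Fintype.card (E m) * q : ℝ) / ((n ^ (12 + e) + 1 : ℕ) : ℝ) ≤ 1 / 10000 := by
    rw [div_le_div_iff₀ hG (by norm_num)]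
    have h9 : (0 : ℝ) ≤ (Fintype.card (E m) * q : ℝ) := by positivity
    have h10 : (Fintype.card (E m) * q : ℝ) * 10000 ≤ (n : ℝ) ^ (12 + e) :=
      (mul_le_mul_of_nonneg_left h5 h9).trans h1
    push_cast
    linarith
  have h11 : ((D ^ 2 * d : ℕ) : ℝ) / (((n ^ (12 + e) + 1) / q : ℕ) : ℝ) ≤ 1 / 10000 := by
    have h12 : (0 : ℝ) < (n : ℝ) ^ 12 := by positivity
    rw [div_le_div_iff₀ (by linarith) (by norm_num)]
    linarith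
  unfold err
  linarith

end

end Pool.Agent.Helper8.LK
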