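import Mathlib
import Pool.Agent.Helper8.LK.Err
import Pool.Agent.Helper95.LK.Assembly

/-!
# The ideal run in the form of the assembly theorem
-/

set_option autoImplicit false
open Finset

namespace Pool.Agent.Helper8.LK

open Pool.Agent.Helper22.ETModel Pool.Agent.Helper22.EP Pool.Agent.Helper14.LK

variable {m n : ℕ} {L R : ℕ} (A : LAlg n L R) (h : 3 * m ≤ n) (p : Fin 3 × Fin m → ℤ) (B G : ℕ)
  {D d sr sc b : ℕ} (ρ : Fin R → Bool) {q : ℕ} [NeZero q]

/-- the ideal run for one random string -/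
noncomputable def ideal (hH : Hides n h p B G sr sc) (hbig : D ^ 2 * d < (G + 1) / q)
    (hW : A.Within D b)
    (hA1 : ∀ fl ρ ans f, A.next fl ρ ans = Act.query (Query.value f) → f.totalDegree ≤ d)
    (hA2 : ∀ fl ρ ans a b, A.next fl ρ ans = Act.query (Query.sign a b) → SignOK n sr sc a b)
    (hper : ∀ ans i j φ, A.next (flagOf h) ρ ans = Act.bit i j φ → ∀ z : ℤ, φ (z + q) = φ z)
    {l : ℕ} (hl : 1 ≤ l) (hD : D < 2 ^ l) :
    Helper95.LK.Ideal m L b ((468 * (d + 1) * l ^ 3) * D + D) q where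
  R := reading A h p ρ q
  used_le := used_le A h p B G ρ hH hbig hW hA1 hA2 hper
  lout := lout A h p ρ
  lout_eq _ _ hc := lout_congr A h p ρ hc
  Cov := Cov A h p ρ
  Cov_eq _ _ hc := Cov_congr A h p ρ hc
  Cov_le := card_Cov_le A h p B G ρ hH hbig hW hA1 hA2 hper hl hD

open Classical in
/-- frequency of the output `false` on the random null instance -/
noncomputable def fB (A : LAlg n L R) (h : 3 * m ≤ n) (p : Fin 3 × Fin m → ℤ) (B G : ℕ)
    (ρ : Fin R → Bool) : ℝ :=
  ((univ.filter fun g : E m → Fin (G + 1) =>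
    A.output (instOf h (wB p B G g)) ρ = false).card : ℝ) /
    ((G + 1 : ℕ) : ℝ) ^ Fintype.card (E m)

open Classical in
/-- frequency of the output `false` on the random planted instance -/
noncomputable def fT (A : LAlg n L R) (h : 3 * m ≤ n) (p : Fin 3 × Fin m → ℤ) (B G : ℕ)
    (T : Tri m) (ρ : Fin R → Bool) : ℝ :=
  ((univ.filter fun g : E m → Fin (G + 1) =>
    A.output (instOf h (wT p B G T g)) ρ = false).card : ℝ) /
    ((G + 1 : ℕ) : ℝ) ^ Fintype.card (E m)

theorem MB (hH : Hides n h p B G sr sc) (hbig : D ^ 2 * d < (G + 1) / q)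
    (hW : A.Within D b)
    (hA1 : ∀ fl ρ ans f, A.next fl ρ ans = Act.query (Query.value f) → f.totalDegree ≤ d)
    (hA2 : ∀ fl ρ ans a b, A.next fl ρ ans = Act.query (Query.sign a b) → SignOK n sr sc a b)
    (hper : ∀ ans i j φ, A.next (flagOf h) ρ ans = Act.bit i j φ → ∀ z : ℤ, φ (z + q) = φ z)
    {l : ℕ} (hl : 1 ≤ l) (hD : D < 2 ^ l) (hR : Fintype.card (E m) * q ≤ G + 1) : fB A h p B G ρ ≤
    (ideal A h p B G ρ hH hbig hW hA1 hA2 hper hl hD).pB + err m G q D d := by
  classical
  have h1 := out_null A h p B G ρ hH hbig hR hW hA1 hA2 hper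
  have h2 : (ideal A h p B G ρ hH hbig hW hA1 hA2 hper hl hD).pB =
      ((univ.filter fun r : E m → ZMod q => lout A h p ρ r = false).card : ℝ) /
        (q : ℝ) ^ Fintype.card (E m) := by
    unfold Helper95.LK.Ideal.pB
    apply congrArg fun x : ℕ => (x : ℝ) / (q : ℝ) ^ Fintype.card (E m)
    apply congrArg Finset.card
    ext r
    simp only [mem_filter]
    rfl
  rw [h2]
  unfold fB
  exact h1

theorem MT (hH : Hides n h p B G sr sc) (hbig : D ^ 2 * d < (G + 1) / q)
    (hW : A.Within D b)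
    (hA1 : ∀ fl ρ ans f, A.next fl ρ ans = Act.query (Query.value f) → f.totalDegree ≤ d)
    (hA2 : ∀ fl ρ ans a b, A.next fl ρ ans = Act.query (Query.sign a b) → SignOK n sr sc a b)
    (hper : ∀ ans i j φ, A.next (flagOf h) ρ ans = Act.bit i j φ → ∀ z : ℤ, φ (z + q) = φ z)
    {l : ℕ} (hl : 1 ≤ l) (hD : D < 2 ^ l) (hR : Fintype.card (E m) * q ≤ G + 1) (T : Tri m) :
    (ideal A h p B G ρ hH hbig hW hA1 hA2 hper hl hD).pT T - err m G q D d ≤
    fT A h p B G T ρ := by
  classical
  have h1 := out_planted A h p B G ρ hH hbig hR hW hA1 hA2 hper T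
  have h2 : (ideal A h p B G ρ hH hbig hW hA1 hA2 hper hl hD).pT T =
      (q : ℝ) * ((univ.filter fun r : E m → ZMod q => ∑ i, r (tk T i) = 0 ∧
        lout A h p ρ r = false ∧ T ∉ Cov A h p ρ r).card : ℝ) /
        (q : ℝ) ^ Fintype.card (E m) := by
    unfold Helper95.LK.Ideal.pT
    apply congrArg fun x : ℕ => (q : ℝ) * (x : ℝ) / (q : ℝ) ^ Fintype.card (E m)
    apply congrArg Finset.card
    ext r
    simp only [mem_filter]
    rfl
  rw [h2]
  unfold fT
  exact h1

/-- A bounded-error algorithm outputs `false` often on the null instances, on average over the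
random bits. -/
theorem sum_fB (hH : Hides n h p B G sr sc) (hdec : A.Decides) :
    2 * (2 : ℝ) ^ R ≤ 3 * ∑ ρ, fB A h p B G ρ := by
  classical
  set N : ℝ := ((G + 1 : ℕ) : ℝ) ^ Fintype.card (E m) with hN
  have hN0 : 0 < N := by positivity
  have hcard : (Fintype.card (E m → Fin (G + 1)) : ℝ) = N := by
    rw [Fintype.card_fun, Fintype.card_fin, hN]
    push_cast
    rfl
  have h1 : ∑ ρ, fB A h p B G ρ = (∑ g : E m → Fin (G + 1), ((univ.filter fun ρ : Fin R → Bool =>
      A.output (instOf h (wB p B G g)) ρ = false).card : ℝ)) / N := by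
    unfold fB
    rw [← Finset.sum_div]
    congr 1
    simp_rw [Finset.card_filter]
    push_cast
    rw [Finset.sum_comm]
  have h2 : ∀ g : E m → Fin (G + 1), 2 * (2 : ℝ) ^ R ≤ 3 * ((univ.filter fun ρ : Fin R → Bool =>
      A.output (instOf h (wB p B G g)) ρ = false).card : ℝ) := by
    intro g
    have h3 := hdec _ (hH.validB g)
    have h4 : (univ.filter fun ρ : Fin R → Bool =>
        (A.output (instOf h (wB p B G g)) ρ = true ↔ (instOf h (wB p B G g)).Yes)) ⊆
        univ.filter fun ρ : Fin R → Bool => A.output (instOf h (wB p B G g)) ρ = false := by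
      intro ρ hρ
      rw [mem_filter] at hρ ⊢
      refine ⟨Finset.mem_univ _, ?_⟩
      rw [← Bool.not_eq_true]
      exact fun h5 => hH.noB g (hρ.2.1 h5)
    exact_mod_cast h3.trans (Nat.mul_le_mul_left 3 (Finset.card_le_card h4))
  rw [h1, ← mul_div_assoc, le_div_iff₀ hN0]
  calc 2 * (2 : ℝ) ^ R * N = ∑ g : E m → Fin (G + 1), 2 * (2 : ℝ) ^ R := by
        rw [Finset.sum_const, Finset.card_univ, nsmul_eq_mul, hcard]; ring
    _ ≤ ∑ g : E m → Fin (G + 1), 3 * ((univ.filter fun ρ : Fin R → Bool =>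
          A.output (instOf h (wB p B G g)) ρ = false).card : ℝ) :=
        Finset.sum_le_sum fun g _ => h2 g
    _ = _ := by rw [Finset.mul_sum]

/-- ... and rarely on the planted instances. -/
theorem sum_fT (hH : Hides n h p B G sr sc) (hdec : A.Decides) (T : Tri m) :
    3 * ∑ ρ, fT A h p B G T ρ ≤ (2 : ℝ) ^ R := by
  classical
  set N : ℝ := ((G + 1 : ℕ) : ℝ) ^ Fintype.card (E m) with hN
  have hN0 : 0 < N := by positivity
  have hcard : (Fintype.card (E m → Fin (G + 1)) : ℝ) = N := by
    rw [Fintype.card_fun, Fintype.card_fin, hN]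
    push_cast
    rfl
  have h1 : ∑ ρ, fT A h p B G T ρ = (∑ g : E m → Fin (G + 1),
      ((univ.filter fun ρ : Fin R → Bool =>
      A.output (instOf h (wT p B G T g)) ρ = false).card : ℝ)) / N := by
    unfold fT
    rw [← Finset.sum_div]
    congr 1
    simp_rw [Finset.card_filter]
    push_cast
    rw [Finset.sum_comm]
  have h2 : ∀ g : E m → Fin (G + 1), 3 * ((univ.filter fun ρ : Fin R → Bool =>
      A.output (instOf h (wT p B G T g)) ρ = false).card : ℝ) ≤ (2 : ℝ) ^ R := by
    intro g
    have h3 := hdec _ (hH.validT T g)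
    have h4 : (univ.filter fun ρ : Fin R → Bool =>
        (A.output (instOf h (wT p B G T g)) ρ = true ↔ (instOf h (wT p B G T g)).Yes)) ⊆
        univ.filter fun ρ : Fin R → Bool => A.output (instOf h (wT p B G T g)) ρ = true := by
      intro ρ hρ
      rw [mem_filter] at hρ ⊢
      exact ⟨Finset.mem_univ _, hρ.2.2 (hH.yesT T g)⟩
    have h5 : (univ.filter fun ρ : Fin R → Bool =>
        A.output (instOf h (wT p B G T g)) ρ = true).card +
        (univ.filter fun ρ : Fin R → Bool =>
        A.output (instOf h (wT p B G T g)) ρ = false).card = 2 ^ R := by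
      have hcardρ : Fintype.card (Fin R → Bool) = 2 ^ R := by simp
      rw [← hcardρ, ← Finset.card_univ]
      have h6 := Finset.card_filter_add_card_filter_not (s := (univ : Finset (Fin R → Bool)))
        (fun ρ => A.output (instOf h (wT p B G T g)) ρ = true)
      rw [← h6]
      congr 2
      apply Finset.filter_congr
      intro ρ _
      simp
    have h7 := h3.trans (Nat.mul_le_mul_left 3 (Finset.card_le_card h4))
    have h8 : 3 * (univ.filter fun ρ : Fin R → Bool =>
        A.output (instOf h (wT p B G T g)) ρ = false).card ≤ 2 ^ R := by omega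
    exact_mod_cast h8
  rw [h1, ← mul_div_assoc, div_le_iff₀ hN0]
  calc 3 * ∑ g : E m → Fin (G + 1), ((univ.filter fun ρ : Fin R → Bool =>
          A.output (instOf h (wT p B G T g)) ρ = false).card : ℝ)
      = ∑ g : E m → Fin (G + 1), 3 * ((univ.filter fun ρ : Fin R → Bool =>
          A.output (instOf h (wT p B G T g)) ρ = false).card : ℝ) := by rw [Finset.mul_sum]
    _ ≤ ∑ g : E m → Fin (G + 1), (2 : ℝ) ^ R := Finset.sum_le_sum fun g _ => h2 g
    _ = (2 : ℝ) ^ R * N := by
        rw [Finset.sum_const, Finset.card_univ, nsmul_eq_mul, hcard]; ring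

end Pool.Agent.Helper8.LK
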